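import Pool.Agent.Helper97.Tarsi.Bridge

set_option autoImplicit false

namespace Pool.Agent.Results.MP_416701_co.IndependenceRatio

/-- Tarsi's question, independent sets: the union `G` of a forest and a 2-degenerate graph on `n`
vertices has an independent set of size at least `(11 n - e(G)) / 45`, hence at least
`(8 n + 4) / 45` when `n` is at least two. -/
theorem result (V : Type) [Fintype V] (F H : SimpleGraph V) (hF : F.IsAcyclic)
    (hH : ∀ S : Finset V, S.Nonempty →
      ∃ v ∈ S, ({w : V | w ∈ S ∧ H.Adj v w} : Set V).ncard ≤ 2) :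
    ∃ J : Finset V, (F ⊔ H).IsIndepSet (J : Set V) ∧
      11 * Fintype.card V ≤ 45 * J.card + (F ⊔ H).edgeSet.ncard ∧
      (2 ≤ Fintype.card V → 8 * Fintype.card V + 4 ≤ 45 * J.card) :=
  Pool.Agent.Helper97.Tarsi.final F H hF hH

end Pool.Agent.Results.MP_416701_co.IndependenceRatio
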