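import Pool.Agent.Helper24.Tar.Graph

set_option autoImplicit false

namespace Pool.Agent.Results.MP_416701_co.IndependentHubs

/-- The union of an arbitrary forest `F` and a graph `H` in which every edge has an end of degree
at most `k` (so the vertices of degree larger than `k` are pairwise non-adjacent) is
`(k + 2)`-colourable. -/
theorem result (V : Type*) [Finite V] (F H : SimpleGraph V) (k : ℕ) (hF : F.IsAcyclic)
    (hH : ∀ u v, H.Adj u v →
      ({w : V | H.Adj u w} : Set V).ncard ≤ k ∨ ({w : V | H.Adj v w} : Set V).ncard ≤ k) :
    (F ⊔ H).Colorable (k + 2) :=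
  Pool.Agent.Helper24.Tar.union_colorable (Pool.Agent.Helper24.Tar.acyclic_D1 hF) k hH

end Pool.Agent.Results.MP_416701_co.IndependentHubs
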