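import Pool.Agent.Helper24.Tar.Graph

set_option autoImplicit false

namespace Pool.Agent.Results.MP_416701_co.InducedStars

/-- Tarsi's question for an arbitrary forest `F` and graphs `H` whose vertex set splits into an
independent set `P` and a set inducing a star forest: the union is 5-colourable. -/
theorem result (V : Type*) [Finite V] (F H : SimpleGraph V) (P : Set V) (hF : F.IsAcyclic)
    (hP : ∀ u ∈ P, ∀ v ∈ P, ¬ H.Adj u v)
    (hQ : ∀ u ∉ P, ∀ v ∉ P, H.Adj u v →
      (∀ w ∉ P, H.Adj u w → w = v) ∨ (∀ w ∉ P, H.Adj v w → w = u)) :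
    (F ⊔ H).Colorable 5 := by
  refine Pool.Agent.Helper24.Tar.forest_part (Pool.Agent.Helper24.Tar.acyclic_D1 hF) P hP ?_
  intro u v huv
  rcases hQ u.1 u.2 v.1 v.2 huv with h | h
  · left
    intro w hw
    exact Subtype.ext (h w.1 w.2 hw)
  · right
    intro w hw
    exact Subtype.ext (h w.1 w.2 hw)

end Pool.Agent.Results.MP_416701_co.InducedStars
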