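import Pool.Agent.Helper24.Tar.Graph

set_option autoImplicit false

namespace Pool.Agent.Results.MP_416701_co.StarForest

/-- Tarsi's question for star forests: the union of a forest all of whose components are stars
(every edge has an end which is a leaf) and an arbitrary 2-degenerate graph is 5-colourable. -/
theorem result (V : Type*) [Finite V] (F H : SimpleGraph V)
    (hF : ∀ u v, F.Adj u v → (∀ w, F.Adj u w → w = v) ∨ (∀ w, F.Adj v w → w = u))
    (hH : ∀ S : Finset V, S.Nonempty →
      ∃ v ∈ S, ({w : V | w ∈ S ∧ H.Adj v w} : Set V).ncard ≤ 2) :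
    (F ⊔ H).Colorable 5 :=
  Pool.Agent.Helper24.Tar.star_main hF hH

end Pool.Agent.Results.MP_416701_co.StarForest
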